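import Pool.Agent.Y874.TP.Stm

/-!
# A strand is moved over a crossing: one move of type II and one move of type III
-/

set_option autoImplicit false

namespace Pool.Agent.Y210.TP

open Pool.Agent.Y468.SR Pool.Agent.Y874.TP

/-- the substitution on the letters of encoded words -/
def lift (f : Pass → List Pass) : Pass ⊕ ℕ → List (Pass ⊕ ℕ)
  | Sum.inl q => (f q).map Sum.inl
  | Sum.inr b => [Sum.inr b]

theorem enc_map (f : Pass → List Pass) (D : Code) :
    enc (D.map fun C => (C.1.flatMap f, C.2)) = (enc D).flatMap (lift f) := by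
  induction D with
  | nil => rfl
  | cons C D ih =>
    rw [List.map_cons, enc_cons, enc_cons, ih, List.flatMap_append, List.flatMap_cons]
    congr 1
    rw [List.flatMap_map, List.map_flatMap]
    rfl

theorem mem_pl {L : List (Pass ⊕ ℕ)} {q : Pass} (h : q ∈ pl L) :
    ∃ A B, L = A ++ [Sum.inl q] ++ B := by
  have h1 : Sum.inl q ∈ L := by
    unfold pl at h
    rw [List.mem_filterMap] at h
    obtain ⟨a, ha, h2⟩ := h
    rcases a with a | a
    · have h3 : a = q := by simpa using h2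
      rw [← h3]; exact ha
    · simp at h2
  obtain ⟨A, B, h2⟩ := List.append_of_mem h1
  exact ⟨A, B, by rw [h2]; simp⟩

theorem fix_of {f : Pass → List Pass} (A : List (Pass ⊕ ℕ)) (h : ∀ q ∈ pl A, f q = [q]) :
    A.flatMap (lift f) = A := by
  induction A with
  | nil => rfl
  | cons a A ih =>
    rcases a with q | b
    · rw [List.flatMap_cons, ih (fun q hq => h q (by simp [hq]))]
      show (f q).map Sum.inl ++ A = _
      rw [h q (by simp)]
      rfl
    · rw [List.flatMap_cons, ih (fun q hq => h q (by simpa using hq))]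
      rfl

/-- a place where the substitutions differ by an exchange of two letters -/
def Site (f g : Pass → List Pass) (U : List (Pass ⊕ ℕ)) (X : Pass × Pass) : Prop :=
  ∃ u v, U.flatMap (lift f) = u ++ two X.1 X.2 ++ v ∧ U.flatMap (lift g) = u ++ two X.2 X.1 ++ v

theorem not_mem_of {P Q R S U V Y : List Pass} (h : (P ++ U ++ Q ++ V ++ R ++ Y ++ S).Nodup)
    {x : Pass} (hx : x ∈ U ∨ x ∈ V ∨ x ∈ Y) : x ∉ P ∧ x ∉ Q ∧ x ∉ R ∧ x ∉ S := by
  have h1 := List.nodup_iff_count_le_one.1 h x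
  simp only [List.count_append] at h1
  have h2 : 1 ≤ U.count x + V.count x + Y.count x := by
    rcases hx with hx | hx | hx
    · have := List.count_pos_iff.2 hx; omega
    · have := List.count_pos_iff.2 hx; omega
    · have := List.count_pos_iff.2 hx; omega
  refine ⟨?_, ?_, ?_, ?_⟩ <;> rw [← List.count_eq_zero] <;> omega

section
variable {α : Type} (a b c : α)
theorem P1 : List.Perm [a, b, c] [a, c, b] := (List.Perm.swap c b []).cons a
theorem P2 : List.Perm [a, b, c] [b, a, c] := List.Perm.swap b a [c]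
theorem P3 : List.Perm [a, b, c] [b, c, a] := (P2 a b c).trans (P1 b a c)
theorem P4 : List.Perm [a, b, c] [c, a, b] := (P1 a b c).trans (P2 a c b)
theorem P5 : List.Perm [a, b, c] [c, b, a] := (P3 a b c).trans (P2 b c a)
end

theorem mate_ne (p : Pass) : p.mate ≠ p := by
  intro h
  have := congrArg Pass.isOver h
  simp [Pass.mate] at this

theorem mate_inj {p r : Pass} (h : p.crossing ≠ r.crossing) : p.mate ≠ r.mate ∧ p.mate ≠ r ∧
    r.mate ≠ p ∧ p ≠ r := by
  refine ⟨?_, ?_, ?_, ?_⟩ <;> intro h1 <;> have h2 := congrArg Pass.crossing h1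
  · exact h h2
  · exact h h2
  · exact h h2.symm
  · exact h h2

/-- the letters exchanged at the place of `r.mate` -/
def kp (p r : Pass) (tc : Bool) (nb : ℕ) : Pass × Pass :=
  if par p r then (⟨nb, !tc, sgn p r tc⟩, r.mate) else (r.mate, ⟨nb, !tc, sgn p r tc⟩)

theorem tri (p r : Pass) (tc : Bool) (nb : ℕ) (hpr : p.crossing ≠ r.crossing)
    (hp : p.crossing ≠ nb) (hr : r.crossing ≠ nb) (h : tc = r.isOver ∨ p.isOver = r.isOver) :
    ∃ t m b, Triangle t m b ∧
      List.Perm [(p, r), ((⟨nb, tc, sgn p r tc⟩ : Pass), p.mate), kp p r tc nb] [t, m, b] := by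
  obtain ⟨pc, po, ps⟩ := p
  obtain ⟨rc, ro, rs⟩ := r
  simp only at hpr hp hr h
  cases po <;> cases ro <;> cases tc
  · -- k > j > i
    refine ⟨_, _, _, Triangle.mk nb rc pc (sgn ⟨pc, false, ps⟩ ⟨rc, false, rs⟩ false) rs ps
      (par ⟨pc, false, ps⟩ ⟨rc, false, rs⟩) true false hr.symm hpr.symm hp.symm ?_ ?_, ?_⟩
    · cases ps <;> cases rs <;> rfl
    · cases ps <;> cases rs <;> rfl
    · cases ps <;> cases rs <;> exact P5 _ _ _
  · -- j > k > i
    refine ⟨_, _, _, Triangle.mk nb pc rc (sgn ⟨pc, false, ps⟩ ⟨rc, false, rs⟩ true) ps rs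
      true (par ⟨pc, false, ps⟩ ⟨rc, false, rs⟩) true hp.symm hpr hr.symm ?_ ?_, ?_⟩
    · cases ps <;> cases rs <;> rfl
    · cases ps <;> cases rs <;> rfl
    · cases ps <;> cases rs <;> exact P3 _ _ _
  · simp at h
  · -- j > i > k
    refine ⟨_, _, _, Triangle.mk pc nb rc ps (sgn ⟨pc, false, ps⟩ ⟨rc, true, rs⟩ true) rs
      false true (par ⟨pc, false, ps⟩ ⟨rc, true, rs⟩) hp hr.symm hpr ?_ ?_, ?_⟩
    · cases ps <;> cases rs <;> rfl
    · cases ps <;> cases rs <;> rfl
    · cases ps <;> cases rs <;> exact P2 _ _ _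
  · -- k > i > j
    refine ⟨_, _, _, Triangle.mk rc nb pc rs (sgn ⟨pc, true, ps⟩ ⟨rc, false, rs⟩ false) ps
      (!par ⟨pc, true, ps⟩ ⟨rc, false, rs⟩) false true hr hp.symm hpr.symm ?_ ?_, ?_⟩
    · cases ps <;> cases rs <;> rfl
    · cases ps <;> cases rs <;> rfl
    · cases ps <;> cases rs <;> exact P4 _ _ _
  · simp at h
  · -- i > k > j
    refine ⟨_, _, _, Triangle.mk rc pc nb rs ps (sgn ⟨pc, true, ps⟩ ⟨rc, true, rs⟩ false)
      false (!par ⟨pc, true, ps⟩ ⟨rc, true, rs⟩) false hpr.symm hp hr ?_ ?_, ?_⟩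
    · cases ps <;> cases rs <;> rfl
    · cases ps <;> cases rs <;> rfl
    · cases ps <;> cases rs <;> exact P1 _ _ _
  · -- i > j > k
    refine ⟨_, _, _, Triangle.mk pc rc nb ps rs (sgn ⟨pc, true, ps⟩ ⟨rc, true, rs⟩ true)
      true false (!par ⟨pc, true, ps⟩ ⟨rc, true, rs⟩) hpr hr hp ?_ ?_, ?_⟩
    · cases ps <;> cases rs <;> rfl
    · cases ps <;> cases rs <;> rfl
    · cases ps <;> cases rs <;> exact List.Perm.refl _

theorem three_sites {f g : Pass → List Pass} {P Q R S U V Y : List (Pass ⊕ ℕ)}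
    (hf : (∀ x ∈ [P, Q, R, S], ∀ q ∈ pl x, f q = [q] ∧ g q = [q])) {X₁ X₂ X₃ t m b : Pass × Pass}
    (h₁ : Site f g U X₁) (h₂ : Site f g V X₂) (h₃ : Site f g Y X₃) (hT : Triangle t m b)
    (hP : List.Perm [X₁, X₂, X₃] [t, m, b]) :
    Reid true ((P ++ U ++ Q ++ V ++ R ++ Y ++ S).flatMap (lift f))
      ((P ++ U ++ Q ++ V ++ R ++ Y ++ S).flatMap (lift g)) := by
  obtain ⟨u, u', e₁, e₁'⟩ := h₁
  obtain ⟨v, v', e₂, e₂'⟩ := h₂
  obtain ⟨w, w', e₃, e₃'⟩ := h₃
  have hfP := fix_of P fun q hq => (hf P (by simp) q hq).1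
  have hfQ := fix_of Q fun q hq => (hf Q (by simp) q hq).1
  have hfR := fix_of R fun q hq => (hf R (by simp) q hq).1
  have hfS := fix_of S fun q hq => (hf S (by simp) q hq).1
  have hgP := fix_of P fun q hq => (hf P (by simp) q hq).2
  have hgQ := fix_of Q fun q hq => (hf Q (by simp) q hq).2
  have hgR := fix_of R fun q hq => (hf R (by simp) q hq).2
  have hgS := fix_of S fun q hq => (hf S (by simp) q hq).2
  have h := Reid.three (r3 := true) rfl (P ++ u) (u' ++ Q ++ v) (v' ++ R ++ w) (w' ++ S)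
    X₁ X₂ X₃ t m b hT hP
  simp only [List.flatMap_append, hfP, hfQ, hfR, hfS, hgP, hgQ, hgR, hgS, e₁, e₁', e₂, e₂', e₃, e₃']
  simp only [List.append_assoc] at h ⊢
  exact h

theorem ext_of {p r : Pass} {tc : Bool} {na nb : ℕ} {q : Pass} (h1 : q ≠ p) (h2 : q ≠ r)
    (h3 : q ≠ p.mate) (h4 : q ≠ r.mate) : ext p r tc na nb q = [q] := by
  unfold ext
  rw [if_neg h1, if_neg h2, if_neg h3, if_neg h4]

theorem ext2_of {p r : Pass} {tc : Bool} {na nb : ℕ} {q : Pass}
    (h3 : q ≠ p.mate) (h4 : q ≠ r.mate) : ext2 p r tc na nb q = [q] := by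
  unfold ext2
  rw [if_neg h3, if_neg h4]

section
variable {p r : Pass} {tc : Bool} {na nb : ℕ} (hpr : p.crossing ≠ r.crossing)
include hpr

theorem siteK : Site (ext2 p r tc na nb) (ext p r tc na nb) [Sum.inl p, Sum.inl r] (p, r) := by
  obtain ⟨m1, m2, m3, m4⟩ := mate_inj hpr
  refine ⟨[], [], ?_, ?_⟩
  · show ((ext2 p r tc na nb p).map Sum.inl ++ ((ext2 p r tc na nb r).map Sum.inl ++ [])) = _
    rw [ext2_of (mate_ne p).symm m3.symm, ext2_of m2.symm (mate_ne r).symm]
    rfl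
  · show ((ext p r tc na nb p).map Sum.inl ++ ((ext p r tc na nb r).map Sum.inl ++ [])) = _
    unfold ext
    rw [if_pos rfl, if_neg m4.symm, if_pos rfl]
    rfl

theorem siteJ : Site (ext2 p r tc na nb) (ext p r tc na nb) [Sum.inl p.mate]
    ((⟨nb, tc, sgn p r tc⟩ : Pass), p.mate) := by
  obtain ⟨m1, m2, m3, m4⟩ := mate_inj hpr
  refine ⟨[Sum.inl ⟨na, tc, !sgn p r tc⟩], [], ?_, ?_⟩
  · show ((ext2 p r tc na nb p.mate).map Sum.inl ++ []) = _
    unfold ext2
    rw [if_pos rfl]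
    rfl
  · show ((ext p r tc na nb p.mate).map Sum.inl ++ []) = _
    unfold ext
    rw [if_neg (mate_ne p), if_neg m2, if_pos rfl]
    rfl

theorem siteR : Site (ext2 p r tc na nb) (ext p r tc na nb) [Sum.inl r.mate] (kp p r tc nb) := by
  obtain ⟨m1, m2, m3, m4⟩ := mate_inj hpr
  by_cases hp : par p r = true
  · refine ⟨[Sum.inl ⟨na, !tc, !sgn p r tc⟩], [], ?_, ?_⟩
    · show ((ext2 p r tc na nb r.mate).map Sum.inl ++ []) = _
      unfold ext2 kp
      rw [if_neg m1.symm, if_pos rfl, if_pos hp, if_pos hp]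
      rfl
    · show ((ext p r tc na nb r.mate).map Sum.inl ++ []) = _
      unfold ext kp
      rw [if_neg m3, if_neg (mate_ne r), if_neg m1.symm, if_pos rfl, if_pos hp, if_pos hp]
      rfl
  · refine ⟨[], [Sum.inl ⟨na, !tc, !sgn p r tc⟩], ?_, ?_⟩
    · show ((ext2 p r tc na nb r.mate).map Sum.inl ++ []) = _
      unfold ext2 kp
      rw [if_neg m1.symm, if_pos rfl, if_neg hp, if_neg hp]
      rfl
    · show ((ext p r tc na nb r.mate).map Sum.inl ++ []) = _
      unfold ext kp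
      rw [if_neg m3, if_neg (mate_ne r), if_neg m1.symm, if_pos rfl, if_neg hp, if_neg hp]
      rfl

end

/-- the move of type III -/
theorem move3 {D : Code} {p r : Pass} {tc : Bool} {na nb : ℕ} (hpr : p.crossing ≠ r.crossing)
    (hp : p.crossing ≠ nb) (hr : r.crossing ≠ nb) (h : tc = r.isOver ∨ p.isOver = r.isOver)
    (hnd : (passes D).Nodup) {P Q R S U V Y : List (Pass ⊕ ℕ)}
    (hD : enc D = P ++ U ++ Q ++ V ++ R ++ Y ++ S)
    (hm : ∀ x ∈ [p, r, p.mate, r.mate], x ∈ pl U ∨ x ∈ pl V ∨ x ∈ pl Y)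
    {X₁ X₂ X₃ : Pass × Pass}
    (h₁ : Site (ext2 p r tc na nb) (ext p r tc na nb) U X₁)
    (h₂ : Site (ext2 p r tc na nb) (ext p r tc na nb) V X₂)
    (h₃ : Site (ext2 p r tc na nb) (ext p r tc na nb) Y X₃)
    (hP : List.Perm [X₁, X₂, X₃] [(p, r), ((⟨nb, tc, sgn p r tc⟩ : Pass), p.mate), kp p r tc nb]) :
    Reid true (enc (mid p r tc na nb D)) (enc (out p r tc na nb D)) := by
  obtain ⟨t, m, b, hT, hP'⟩ := tri p r tc nb hpr hp hr h
  unfold mid out
  rw [enc_map, enc_map, hD]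
  rw [← pl_enc, hD] at hnd
  simp only [pl_append] at hnd
  refine three_sites ?_ h₁ h₂ h₃ hT (hP.trans hP')
  have n1 := not_mem_of hnd (hm p (by simp))
  have n2 := not_mem_of hnd (hm r (by simp))
  have n3 := not_mem_of hnd (hm p.mate (by simp))
  have n4 := not_mem_of hnd (hm r.mate (by simp))
  intro x hx q hq
  have key : q ≠ p ∧ q ≠ r ∧ q ≠ p.mate ∧ q ≠ r.mate := by
    simp only [List.mem_cons, List.not_mem_nil, or_false] at hx
    rcases hx with rfl | rfl | rfl | rfl
    · exact ⟨fun e => n1.1 (e ▸ hq), fun e => n2.1 (e ▸ hq), fun e => n3.1 (e ▸ hq),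
        fun e => n4.1 (e ▸ hq)⟩
    · exact ⟨fun e => n1.2.1 (e ▸ hq), fun e => n2.2.1 (e ▸ hq), fun e => n3.2.1 (e ▸ hq),
        fun e => n4.2.1 (e ▸ hq)⟩
    · exact ⟨fun e => n1.2.2.1 (e ▸ hq), fun e => n2.2.2.1 (e ▸ hq), fun e => n3.2.2.1 (e ▸ hq),
        fun e => n4.2.2.1 (e ▸ hq)⟩
    · exact ⟨fun e => n1.2.2.2 (e ▸ hq), fun e => n2.2.2.2 (e ▸ hq), fun e => n3.2.2.2 (e ▸ hq),
        fun e => n4.2.2.2 (e ▸ hq)⟩
  exact ⟨ext2_of key.2.2.1 key.2.2.2, ext_of key.1 key.2.1 key.2.2.1 key.2.2.2⟩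

/-- the move of type II -/
theorem move2 {D : Code} {p r : Pass} {tc : Bool} {na nb : ℕ} (hpr : p.crossing ≠ r.crossing)
    (hab : na ≠ nb) (hnd : (passes D).Nodup) (hp : p.mate ∈ passes D) (hr : r.mate ∈ passes D) :
    Reid true (enc (mid p r tc na nb D)) (enc D) := by
  obtain ⟨m1, m2, m3, m4⟩ := mate_inj hpr
  unfold mid
  rw [enc_map]
  rw [← pl_enc] at hnd hp hr
  obtain ⟨P, Z, hZ⟩ := mem_pl hp
  have aux : ∀ (P Q R : List (Pass ⊕ ℕ)) (x y : Pass),
      enc D = P ++ [Sum.inl x] ++ Q ++ [Sum.inl y] ++ R →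
      (x = p.mate ∧ y = r.mate ∨ x = r.mate ∧ y = p.mate) →
      (enc D).flatMap (lift (ext2 p r tc na nb)) = P ++ (ext2 p r tc na nb x).map Sum.inl ++ Q ++
        (ext2 p r tc na nb y).map Sum.inl ++ R := by
    intro P Q R x y hD hxy
    rw [hD] at hnd ⊢
    have hnd' : (pl P ++ [x] ++ pl Q ++ [y] ++ pl R ++ [] ++ []).Nodup := by
      simpa using hnd
    have n3 := not_mem_of (x := p.mate) hnd' (by
      rcases hxy with ⟨rfl, rfl⟩ | ⟨rfl, rfl⟩ <;> simp)
    have n4 := not_mem_of (x := r.mate) hnd' (by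
      rcases hxy with ⟨rfl, rfl⟩ | ⟨rfl, rfl⟩ <;> simp)
    rw [List.flatMap_append, List.flatMap_append, List.flatMap_append, List.flatMap_append,
      fix_of P fun q hq => ext2_of (fun e => n3.1 (e ▸ hq)) (fun e => n4.1 (e ▸ hq)),
      fix_of Q fun q hq => ext2_of (fun e => n3.2.1 (e ▸ hq)) (fun e => n4.2.1 (e ▸ hq)),
      fix_of R fun q hq => ext2_of (fun e => n3.2.2.1 (e ▸ hq)) (fun e => n4.2.2.1 (e ▸ hq)),
      List.flatMap_singleton, List.flatMap_singleton]
    rfl
  have eJ : ext2 p r tc na nb p.mate =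
      [⟨na, tc, !sgn p r tc⟩, ⟨nb, tc, sgn p r tc⟩, p.mate] := by
    unfold ext2
    rw [if_pos rfl]
  have eR : ext2 p r tc na nb r.mate = if par p r then
      [⟨na, !tc, !sgn p r tc⟩, ⟨nb, !tc, sgn p r tc⟩, r.mate]
      else [r.mate, ⟨nb, !tc, sgn p r tc⟩, ⟨na, !tc, !sgn p r tc⟩] := by
    unfold ext2
    rw [if_neg m1.symm, if_pos rfl]
  rw [hZ] at hr
  simp only [pl_append, List.mem_append, pl_inl, pl_nil, List.mem_singleton] at hr
  rcases hr with (hr | hr) | hr
  · -- `r.mate` comes first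
    obtain ⟨P', Q, hQ⟩ := mem_pl hr
    have hD : enc D = P' ++ [Sum.inl r.mate] ++ Q ++ [Sum.inl p.mate] ++ Z := by rw [hZ, hQ]
    rw [aux P' Q Z r.mate p.mate hD (Or.inr ⟨rfl, rfl⟩), eJ, eR]
    by_cases hpar : par p r = true
    · rw [if_pos hpar]
      have h := Reid.twoSame (r3 := true) P' ([Sum.inl r.mate] ++ Q) ([Sum.inl p.mate] ++ Z)
        (⟨na, !tc, !sgn p r tc⟩ : Pass) (⟨nb, !tc, sgn p r tc⟩ : Pass) hab rfl (by simp)
      simp only [two, Pass.mate, Bool.not_not, List.append_assoc, List.cons_append,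
        List.nil_append, List.map_cons, List.map_nil] at h hD ⊢
      rw [hD]
      exact h
    · rw [if_neg hpar]
      have h := Reid.twoOpp (r3 := true) (P' ++ [Sum.inl r.mate]) Q ([Sum.inl p.mate] ++ Z)
        (⟨nb, !tc, sgn p r tc⟩ : Pass) (⟨na, !tc, !sgn p r tc⟩ : Pass) hab.symm rfl rfl
      simp only [two, Pass.mate, Bool.not_not, List.append_assoc, List.cons_append,
        List.nil_append, List.map_cons, List.map_nil] at h hD ⊢
      rw [hD]
      exact h
  · exact absurd hr m1.symm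
  · -- `p.mate` comes first
    obtain ⟨Q, R, hQ⟩ := mem_pl hr
    have hD : enc D = P ++ [Sum.inl p.mate] ++ Q ++ [Sum.inl r.mate] ++ R := by
      rw [hZ, hQ]; simp only [List.append_assoc]
    rw [aux P Q R p.mate r.mate hD (Or.inl ⟨rfl, rfl⟩), eJ, eR]
    by_cases hpar : par p r = true
    · rw [if_pos hpar]
      have h := Reid.twoSame (r3 := true) P ([Sum.inl p.mate] ++ Q) ([Sum.inl r.mate] ++ R)
        (⟨na, tc, !sgn p r tc⟩ : Pass) (⟨nb, tc, sgn p r tc⟩ : Pass) hab rfl (by simp)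
      simp only [two, Pass.mate, Bool.not_not, List.append_assoc, List.cons_append,
        List.nil_append, List.map_cons, List.map_nil] at h hD ⊢
      rw [hD]
      exact h
    · rw [if_neg hpar]
      have h := Reid.twoOpp (r3 := true) P ([Sum.inl p.mate] ++ Q ++ [Sum.inl r.mate]) R
        (⟨na, tc, !sgn p r tc⟩ : Pass) (⟨nb, tc, sgn p r tc⟩ : Pass) hab rfl (by simp)
      simp only [two, Pass.mate, Bool.not_not, List.append_assoc, List.cons_append,
        List.nil_append, List.map_cons, List.map_nil] at h hD ⊢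
      rw [hD]
      exact h

theorem move : S_MOVE := by
  intro D p r tc C a c na nb hW hC hCp hpr h hab hnew
  have hnd : (passes D).Nodup := List.Nodup.of_map _ hW.2
  have hCs : ∀ q ∈ C.1, q ∈ passes D := fun q hq => List.mem_flatMap.2 ⟨C, hC, hq⟩
  have hpD : p ∈ passes D := hCs p (by rw [hCp]; simp)
  have hrD : r ∈ passes D := hCs r (by rw [hCp]; simp)
  have hpm := hW.1 p hpD
  have hrm := hW.1 r hrD
  refine ⟨move2 hpr hab hnd hpm hrm, ?_⟩
  obtain ⟨m1, m2, m3, m4⟩ := mate_inj hpr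
  obtain ⟨D₁, D₂, hD⟩ := List.append_of_mem hC
  obtain ⟨A, B, hAB⟩ : ∃ A B, enc D = A ++ [Sum.inl p, Sum.inl r] ++ B := by
    refine ⟨enc D₁ ++ a.map Sum.inl, c.map Sum.inl ++ Sum.inr C.2 :: enc D₂, ?_⟩
    rw [hD, enc_append, enc_cons, hCp]
    simp
  have hnb := hnew p hpD
  have hnb' := hnew r hrD
  have hpm' : p.mate ∈ pl A ∨ p.mate ∈ pl B := by
    have := hpm
    rw [← pl_enc, hAB] at this
    simp only [pl_append, pl_inl, pl_nil, List.mem_append, List.mem_cons, List.not_mem_nil,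
      or_false] at this
    rcases this with (h1 | h1 | h1) | h1
    · exact Or.inl h1
    · exact absurd h1 (mate_ne p)
    · exact absurd h1 m2
    · exact Or.inr h1
  have hrm' : r.mate ∈ pl A ∨ r.mate ∈ pl B := by
    have := hrm
    rw [← pl_enc, hAB] at this
    simp only [pl_append, pl_inl, pl_nil, List.mem_append, List.mem_cons, List.not_mem_nil,
      or_false] at this
    rcases this with (h1 | h1 | h1) | h1
    · exact Or.inl h1
    · exact absurd h1 m3
    · exact absurd h1 (mate_ne r)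
    · exact Or.inr h1
  rcases hpm' with h1 | h1
  · obtain ⟨A₁, A₂, hA⟩ := mem_pl h1
    rcases hrm' with h2 | h2
    · rw [hA] at h2
      simp only [pl_append, pl_inl, pl_nil, List.mem_append, List.mem_singleton] at h2
      rcases h2 with (h2 | h2) | h2
      · -- `r.mate`, `p.mate`, `K`
        obtain ⟨A₃, A₄, hA'⟩ := mem_pl h2
        refine move3 hpr hnb.2 hnb'.2 h hnd (P := A₃) (Q := A₄) (R := A₂) (S := B)
          (by rw [hAB, hA, hA']) ?_ (siteR hpr) (siteJ hpr) (siteK hpr) (P5 _ _ _)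
        intro x hx
        simp only [List.mem_cons, List.not_mem_nil, or_false] at hx
        rcases hx with rfl | rfl | rfl | rfl <;> simp
      · exact absurd h2 m1.symm
      · -- `p.mate`, `r.mate`, `K`
        obtain ⟨A₃, A₄, hA'⟩ := mem_pl h2
        refine move3 hpr hnb.2 hnb'.2 h hnd (P := A₁) (Q := A₃) (R := A₄) (S := B)
          (by rw [hAB, hA, hA']; simp only [List.append_assoc]) ?_
          (siteJ hpr) (siteR hpr) (siteK hpr) (P4 _ _ _)
        intro x hx
        simp only [List.mem_cons, List.not_mem_nil, or_false] at hx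
        rcases hx with rfl | rfl | rfl | rfl <;> simp
    · -- `p.mate`, `K`, `r.mate`
      obtain ⟨A₃, A₄, hA'⟩ := mem_pl h2
      refine move3 hpr hnb.2 hnb'.2 h hnd (P := A₁) (Q := A₂) (R := A₃) (S := A₄)
        (by rw [hAB, hA, hA']; simp only [List.append_assoc]) ?_
        (siteJ hpr) (siteK hpr) (siteR hpr) (P2 _ _ _)
      intro x hx
      simp only [List.mem_cons, List.not_mem_nil, or_false] at hx
      rcases hx with rfl | rfl | rfl | rfl <;> simp
  · obtain ⟨A₁, A₂, hA⟩ := mem_pl h1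
    rcases hrm' with h2 | h2
    · -- `r.mate`, `K`, `p.mate`
      obtain ⟨A₃, A₄, hA'⟩ := mem_pl h2
      refine move3 hpr hnb.2 hnb'.2 h hnd (P := A₃) (Q := A₄) (R := A₁) (S := A₂)
        (by rw [hAB, hA, hA']; simp only [List.append_assoc]) ?_
        (siteR hpr) (siteK hpr) (siteJ hpr) (P3 _ _ _)
      intro x hx
      simp only [List.mem_cons, List.not_mem_nil, or_false] at hx
      rcases hx with rfl | rfl | rfl | rfl <;> simp
    · rw [hA] at h2
      simp only [pl_append, pl_inl, pl_nil, List.mem_append, List.mem_singleton] at h2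
      rcases h2 with (h2 | h2) | h2
      · -- `K`, `r.mate`, `p.mate`
        obtain ⟨A₃, A₄, hA'⟩ := mem_pl h2
        refine move3 hpr hnb.2 hnb'.2 h hnd (P := A) (Q := A₃) (R := A₄) (S := A₂)
          (by rw [hAB, hA, hA']; simp only [List.append_assoc]) ?_
          (siteK hpr) (siteR hpr) (siteJ hpr) (P1 _ _ _)
        intro x hx
        simp only [List.mem_cons, List.not_mem_nil, or_false] at hx
        rcases hx with rfl | rfl | rfl | rfl <;> simp
      · exact absurd h2 m1.symm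
      · -- `K`, `p.mate`, `r.mate`
        obtain ⟨A₃, A₄, hA'⟩ := mem_pl h2
        refine move3 hpr hnb.2 hnb'.2 h hnd (P := A) (Q := A₁) (R := A₃) (S := A₄)
          (by rw [hAB, hA, hA']; simp only [List.append_assoc]) ?_
          (siteK hpr) (siteJ hpr) (siteR hpr) (List.Perm.refl _)
        intro x hx
        simp only [List.mem_cons, List.not_mem_nil, or_false] at hx
        rcases hx with rfl | rfl | rfl | rfl <;> simp

end Pool.Agent.Y210.TP
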